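import Pool.Agent.Helper40_Dio.Stmt

/-!
# Squad BKW (MP_0c1440_lc): all of arithmetic on almost all integers and almost all squares

GOAL (Theorem B, note of helper52).  Let `M` be the set of the `y ≥ 2` which are determined among all
natural numbers `≥ 2` by the prime divisors of `y` and of `y - 1` (`Rig`).  `M` is definable in
`(ℕ; S, ⊥)`, every arithmetical relation restricted to `M` is definable, and `n` and `n ^ 2` are in `M`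
for all `n ≤ x` but `C x exp (- (log x) ^ (1/9))`.

IDEA.  `n = p h`, `p` a large prime, `m = p ^ e h'` a twin of `n` or of `n ^ 2`.  Every prime `q ∣ n - 1`
divides `h ^ e - h'`, a number which does not depend on `p`.  If the exponents of `m` are bounded by `E`,
there are few such numbers, each has few prime factors, and `n - 1` is a product of few prime powers
of them.  The bound for the exponents comes from a weak form of the theorem of Baker for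
`n` logarithms of primes (part A), with explicit dependence on the number of primes.

The analytic part of Baker's proof is in the library: `Pool.Agent.DIO.AleStatement` (proved in
`Pool/Agent/Helper67_Dio/Ale.lean` from `Pool/Agent/Helper44_Dio`), `VdmStatement`
(`Pool/Agent/Helper21_DIO/Vdm.lean`).  Model files for the case of three logarithms:
`Pool/Agent/Helper9_Dio/Ext.lean` (STP), `Helper67_Dio/Ini.lean` (SIG), `Helper59_DIO/Bak.lean` (BAK).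

ALL ROWS ARE INDEPENDENT: a row may use the statements named in the column `uses` as hypotheses.
-/

set_option autoImplicit false

open Real

open scoped BigOperators

noncomputable section

namespace Pool.Agent.BKW

/-! ## A. Baker: definitions -/

/-- the indices `u = ((u_j)_{j < N}, u_0)`, all `< L` -/
abbrev Ix (N L : ℕ) : Type := (Fin N → Fin L) × Fin L

/-- the integer `b_0 u_j - b_j u_0` -/
def cc {N L : ℕ} (b : Fin N → ℤ) (b0 : ℤ) (u : Ix N L) (j : Fin N) : ℤ :=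
  b0 * ((u.1 j : ℕ) : ℤ) - b j * ((u.2 : ℕ) : ℤ)

/-- `∏ a_j ^ u_j · a_0 ^ u_0` -/
def mon {N L : ℕ} (a : Fin N → ℕ) (a0 : ℕ) (u : Ix N L) : ℕ :=
  (∏ j, a j ^ (u.1 j : ℕ)) * a0 ^ (u.2 : ℕ)

/-- the integers `F_μ(s) = ∑ p(u) ∏ (b_0 u_j - b_j u_0) ^ μ_j (∏ a_j ^ u_j a_0 ^ u_0) ^ s` -/
def FF {N L : ℕ} (a : Fin N → ℕ) (a0 : ℕ) (b : Fin N → ℤ) (b0 : ℤ) (p : Ix N L → ℤ)
    (μ : Fin N → ℕ) (s : ℕ) : ℤ :=
  ∑ u : Ix N L, p u * (∏ j, cc b b0 u j ^ μ j) * ((mon a a0 u : ℕ) : ℤ) ^ s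

/-- `F_μ(s) = 0` for `|μ| ≤ h` and `1 ≤ s ≤ R` -/
def Zer {N L : ℕ} (a : Fin N → ℕ) (a0 : ℕ) (b : Fin N → ℤ) (b0 : ℤ) (p : Ix N L → ℤ)
    (h R : ℕ) : Prop :=
  ∀ μ : Fin N → ℕ, ∑ j, μ j ≤ h → ∀ s : ℕ, 1 ≤ s → s ≤ R → FF a a0 b b0 p μ s = 0

/-- `θ_u = (∑ (b_0 u_j - b_j u_0) log a_j) / b_0` -/
def th {N L : ℕ} (a : Fin N → ℕ) (b : Fin N → ℤ) (b0 : ℤ) (u : Ix N L) : ℝ :=
  (∑ j, ((cc b b0 u j : ℤ) : ℝ) * log (a j)) / (b0 : ℝ)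

/-- the derivative of order `t` of `f_μ` at `s`:
`∑ p(u) ∏ (b_0 u_j - b_j u_0) ^ μ_j θ_u ^ t exp (s θ_u)` -/
def ff {N L : ℕ} (a : Fin N → ℕ) (b : Fin N → ℤ) (b0 : ℤ) (p : Ix N L → ℤ)
    (μ : Fin N → ℕ) (t : ℕ) (s : ℝ) : ℝ :=
  ∑ u : Ix N L, (p u : ℝ) * ((∏ j, cc b b0 u j ^ μ j : ℤ) : ℝ) * th a b b0 u ^ t *
    exp (s * th a b b0 u)

/-- the linear form -/
def Lam {N : ℕ} (a : Fin N → ℕ) (a0 : ℕ) (b : Fin N → ℤ) (b0 : ℤ) : ℝ :=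
  ∑ j, (b j : ℝ) * log (a j) + (b0 : ℝ) * log a0

/-- the data; `b_0` has the largest absolute value `B` -/
structure Dat (N : ℕ) (a : Fin N → ℕ) (a0 : ℕ) (b : Fin N → ℤ) (b0 : ℤ) (l : ℝ) (B : ℕ) :
    Prop where
  a1 : ∀ j, 1 ≤ a j
  a01 : 1 ≤ a0
  la : ∀ j, log (a j) ≤ l
  la0 : log a0 ≤ l
  l1 : 1 ≤ l
  B1 : 1 ≤ B
  hb : ∀ j, (b j).natAbs ≤ B
  hb0 : b0.natAbs = B

/-- the logarithm of the bound for the sum of the absolute values of the coefficients -/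
def logC (N L h B : ℕ) (H0 : ℝ) : ℝ := ((N : ℝ) + 1) * log L + H0 + h * log (2 * B * L)

/-- the inequalities of one extrapolation step: orders `≤ h`, `R T` approximate zeros -/
def StpIneq (N L h T R R' B : ℕ) (l H0 lam : ℝ) : Prop :=
  8 * (2 * N * L * l) * R' ≤ (R : ℝ) * T ∧
  logC N L h B H0 + 2 ≤ (R : ℝ) * T / 2 ∧
  logC N L h B H0 + ((N : ℝ) + 1) * L * l * R' + log (2 * R' * L) + T * log (N * l + 1) +
    (((R : ℝ) * T) ^ 2 + 2 * (R * T)) * log (2 * (R * T) * R') + 3 ≤ lam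

/-! ## A. Baker: rows -/

/-- SIZ.

Proof.  (i) `|b_0 u_j - b_j u_0| ≤ 2 B L`, `2 B L ≥ 1`, there are `L ^ (N + 1)` indices.
(ii) `|θ_u| ≤ (∑ 2 B L l) / B`.  (iii) `(∑_j (b_0 u_j - b_j u_0) log a_j) / b_0 = ∑ u_j log a_j -
(u_0 / b_0) (Lam - b_0 log a_0)`.  (iv) `log (mon u) = ∑ u_j log a_j + u_0 log a_0`. -/
def SizStmt : Prop := ∀ (N L B : ℕ) (a : Fin N → ℕ) (a0 : ℕ) (b : Fin N → ℤ) (b0 : ℤ) (l : ℝ),
  Dat N a a0 b b0 l B → 1 ≤ L →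
    (∀ (p : Ix N L → ℤ) (H0 : ℝ) (h : ℕ) (μ : Fin N → ℕ), (∀ u, |(p u : ℝ)| ≤ exp H0) →
      ∑ j, μ j ≤ h →
        ∑ u : Ix N L, |(p u : ℝ) * ((∏ j, cc b b0 u j ^ μ j : ℤ) : ℝ)| ≤ exp (logC N L h B H0)) ∧
    ∀ u : Ix N L, |th a b b0 u| ≤ 2 * N * L * l ∧
      th a b b0 u = log (mon a a0 u) - (u.2 : ℕ) * Lam a a0 b b0 / b0 ∧
      1 ≤ mon a a0 u ∧ log (mon a a0 u) ≤ ((N : ℝ) + 1) * L * l

/-- DRV: the derivatives.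

Proof.  Induction on `t`: `θ_u ^ (t + 1) = θ_u ^ t (∑_j (b_0 u_j - b_j u_0) log a_j) / b_0`, so
`ff μ (t + 1) s = b_0⁻¹ ∑_j log a_j · ff (μ + e_j) t s` (`Function.update` or `μ + Pi.single j 1`), and
`|b_0| ≥ 1`, `0 ≤ log a_j ≤ l`. -/
def DrvStmt : Prop := ∀ (N L B : ℕ) (a : Fin N → ℕ) (a0 : ℕ) (b : Fin N → ℤ) (b0 : ℤ) (l : ℝ),
  Dat N a a0 b b0 l B → ∀ (p : Ix N L → ℤ) (H : ℕ) (s η : ℝ), 0 ≤ η →
    (∀ μ : Fin N → ℕ, ∑ j, μ j ≤ H → |ff a b b0 p μ 0 s| ≤ η) →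
      ∀ (t : ℕ) (μ : Fin N → ℕ), ∑ j, μ j + t ≤ H →
        |ff a b b0 p μ t s| ≤ ((N : ℝ) * l) ^ t * η

/-- CLO: `f_μ(s)` is close to the integer `F_μ(s)`.  Uses SIZ.

Proof.  `exp (s θ_u) = (mon u) ^ s exp (- s u_0 Lam / b_0)`, `|exp v - 1| ≤ 2 |v|` for `|v| ≤ 1`
(`Real.abs_exp_sub_one_le`), `|s u_0 Lam / b_0| ≤ s L |Lam|`, `(mon u) ^ s ≤ exp ((N + 1) L l s)`, and
(i) of SIZ. -/
def CloStmt : Prop := ∀ (N L B : ℕ) (a : Fin N → ℕ) (a0 : ℕ) (b : Fin N → ℤ) (b0 : ℤ) (l : ℝ),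
  Dat N a a0 b b0 l B → 1 ≤ L → ∀ (p : Ix N L → ℤ) (H0 : ℝ) (h : ℕ) (μ : Fin N → ℕ) (s : ℕ),
    (∀ u, |(p u : ℝ)| ≤ exp H0) → ∑ j, μ j ≤ h → (s : ℝ) * L * |Lam a a0 b b0| ≤ 1 →
      |ff a b b0 p μ 0 s - ((FF a a0 b b0 p μ s : ℤ) : ℝ)| ≤
        exp (logC N L h B H0 + ((N : ℝ) + 1) * L * l * s) * (2 * s * L * |Lam a a0 b b0|)

/-- SIG: Siegel's lemma.

Proof.  `Int.Matrix.exists_ne_zero_int_vec_norm_le` for the matrix with the rows `(μ, s)`,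
`μ : Fin N → Fin (h + 1)`, `s : Fin R` (standing for `s + 1`), the columns `u`, and the entries
`(∏ (b_0 u_j - b_j u_0) ^ μ_j) (mon u) ^ (s + 1)` if `∑ μ_j ≤ h` and `0` otherwise, of absolute value at
most `(2 B L) ^ h exp ((N + 1) L l R)`.  There are `R (h + 1) ^ N ≥ 1` rows and `L ^ (N + 1)` columns, so
the exponent `rows / (columns - rows)` is at most `1`.  Compare `Pool/Agent/Helper21_DIO/Sie.lean`. -/
def SigStmt : Prop := ∀ (N L h R B : ℕ) (a : Fin N → ℕ) (a0 : ℕ) (b : Fin N → ℤ) (b0 : ℤ) (l : ℝ),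
  Dat N a a0 b b0 l B → 1 ≤ L → 1 ≤ R → 2 * (R * (h + 1) ^ N) ≤ L ^ (N + 1) →
    ∃ p : Ix N L → ℤ, p ≠ 0 ∧
      (∀ u, |(p u : ℝ)| ≤
        exp (((N : ℝ) + 1) * log L + h * log (2 * B * L) + ((N : ℝ) + 1) * L * l * R)) ∧
      Zer a a0 b b0 p h R

/-- STP: one extrapolation step.  Uses `DIO.AleStatement`, SIZ, DRV, CLO.

Proof.  Let `C = logC N L h B H0`, `W = 2 N L l`, `n₁ = R T`, `E₁ = exp (C + (N + 1) L l R' + log (2 R' L) - lam)`.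
`R' L |Lam| ≤ 1`.  By CLO and `Zer`, `|f_μ(s)| ≤ E₁` for `∑ μ ≤ h' + T`, `1 ≤ s ≤ R`.  By DRV
`|ff μ t s| ≤ (N l) ^ t E₁ ≤ (N l + 1) ^ T E₁` for `∑ μ ≤ h'`, `t < T`.  By ALE (`h := R`, `k := T`, `R := R'`)
`|f_μ(s)| ≤ exp C (W R') ^ n₁ exp (W R') / n₁! + (N l + 1) ^ T E₁ (2 n₁ R') ^ (n₁ ^ 2 + 2 n₁)` for
`1 ≤ s ≤ R'`.  First term: `n₁! ≥ (n₁ / e) ^ n₁` and `8 W R' ≤ n₁` give at most
`exp (C - n₁ + n₁ / 8) ≤ exp (- 2)` (`(e / 8) ^ n₁ ≤ exp (- n₁)` as `8 ≥ e ^ 2`); second term at most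
`exp (- 3)`; by CLO `|F_μ(s)| ≤ exp (- 2) + exp (- 3) + exp (- 3) < 1`, so the integer is `0`. -/
def StpStmt : Prop := ∀ (N L h h' T R R' B : ℕ) (a : Fin N → ℕ) (a0 : ℕ) (b : Fin N → ℤ) (b0 : ℤ)
  (l H0 lam : ℝ) (p : Ix N L → ℤ), Dat N a a0 b b0 l B → 1 ≤ L → 1 ≤ T → 1 ≤ R → R ≤ R' →
    h' + T ≤ h → (∀ u, |(p u : ℝ)| ≤ exp H0) → |Lam a a0 b b0| ≤ exp (-lam) →
    StpIneq N L h T R R' B l H0 lam → Zer a a0 b b0 p (h' + T) R → Zer a a0 b b0 p h' R'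

/-- PAR: the parameters `L = P ^ (2 n)`, `h_k = 2 ^ (K - k) P ^ (2 n + 2)`, `R_k = P ^ (k + 1)`,
`K = 2 n ^ 2 - 1`, `n = N + 1`, `lam = (B - 1) log 2`.

Proof.  Let `P₀ = 2 ^ (20 n ^ 3)`; `16 N l ≤ P` and `2 ^ (2 n ^ 3) ≤ P` follow from `P₀ l ≤ P`, `l ≥ 1`.
(1) `2 P (2 ^ K P ^ (2 n + 2) + 1) ^ N ≤ 2 P (2 ^ (K + 1) P ^ (2 n + 2)) ^ N =
2 ^ (2 n ^ 2 N + 1) P ^ (1 + (2 n + 2) N) ≤ P ^ (2 + (2 n + 2) N)`, and `2 + (2 n + 2) (n - 1) = 2 n ^ 2`.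
(2) For `k < K`, `T = 2 ^ (K - k - 1) P ^ (2 n + 2)`, `R T = 2 ^ (K - k - 1) P ^ (2 n + k + 3)`:
`8 (2 N L l) R' = 16 N l P ^ (2 n + k + 2) ≤ P ^ (2 n + k + 3)`.
`logC = 2 n log L + 2 h₀ log (2 B L) + n L l P` with `log (2 B L) ≤ 1 + 16 n ^ 2 log (P + 1) + 2 n log P`,
`n L l P ≤ P ^ (2 n + 2)`, and `R T / 2 ≥ 2 ^ (K - 2) P ^ (2 n + 3) (P / 2) ^ k ≥ 2 ^ (K - 2) P ^ (2 n + 3)`: it is
enough that `P ≥ 8 (1 + 16 n ^ 2 log (P + 1) + 2 n log P) + 16`, which holds for `P ≥ 2 ^ (20 n ^ 3)`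
(`log (P + 1) ≤ 4 P ^ (1/4)` or similar).
Last inequality: `R T ≤ 2 ^ K P ^ (2 n ^ 2 + 2 n + 1) ≤ P ^ (2 n ^ 2 + 2 n + 2)`, `R' ≤ P ^ (2 n ^ 2)`; all terms on the
left are at most `P ^ (4 n ^ 2 + 4 n + 6)`, and `(B - 1) log 2 ≥ B / 2 ≥ P ^ (16 n ^ 2) / 2`;
`16 n ^ 2 ≥ 4 n ^ 2 + 4 n + 8` for `n ≥ 2`. -/
def ParStmt : Prop := ∀ (N P B : ℕ) (l : ℝ), 1 ≤ N → 1 ≤ l →
  (2 : ℝ) ^ (20 * (N + 1) ^ 3) * l ≤ P → P ^ (16 * (N + 1) ^ 2) ≤ B → B ≤ (P + 1) ^ (16 * (N + 1) ^ 2) →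
    2 * (P * (2 ^ (2 * (N + 1) ^ 2 - 1) * P ^ (2 * (N + 1) + 2) + 1) ^ N) ≤
      (P ^ (2 * (N + 1))) ^ (N + 1) ∧
    ∀ k : ℕ, k < 2 * (N + 1) ^ 2 - 1 →
      StpIneq N (P ^ (2 * (N + 1))) (2 ^ (2 * (N + 1) ^ 2 - 1) * P ^ (2 * (N + 1) + 2))
        (2 ^ (2 * (N + 1) ^ 2 - 1 - k - 1) * P ^ (2 * (N + 1) + 2)) (P ^ (k + 1)) (P ^ (k + 2)) B l
        (((N : ℝ) + 1) * log ((P ^ (2 * (N + 1)) : ℕ) : ℝ) +
          ((2 ^ (2 * (N + 1) ^ 2 - 1) * P ^ (2 * (N + 1) + 2) : ℕ) : ℝ) *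
            log (2 * B * ((P ^ (2 * (N + 1)) : ℕ) : ℝ)) +
          ((N : ℝ) + 1) * ((P ^ (2 * (N + 1)) : ℕ) : ℝ) * l * (P : ℝ))
        (((B : ℝ) - 1) * log 2)

/-- BAK: the weak theorem of Baker.  Uses SIG, STP, PAR, `DIO.VdmStatement`.

Proof.  Let `n = N + 1` and suppose `(2 ^ (20 n ^ 3) l + 2) ^ (16 n ^ 2) < B`.  Let `P` be the largest natural
number with `P ^ (16 n ^ 2) ≤ B` (`Nat.findGreatest`, or the floor of the root as in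
`Helper59_DIO/Bak.lean`); then `B ≤ (P + 1) ^ (16 n ^ 2)` and `P ≥ 2 ^ (20 n ^ 3) l`.  SIG (`L = P ^ (2 n)`,
`h = h₀`, `R = P`), STP for `k = 0, …, K - 1` (induction; `h' = T = h_{k+1}`, `h' + T = h_k`), so
`∑ p(u) (mon u) ^ s = 0` for `1 ≤ s ≤ P ^ (K + 1) = P ^ (2 n ^ 2) = L ^ n`, the number of indices.  The `mon u`
are different (unique factorization: compare the exponents of the primes `a_j` and `a_0`) and not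
zero, so `p = 0` by VDM, a contradiction. -/
def BakStmt : Prop := ∀ (N B : ℕ) (a : Fin N → ℕ) (a0 : ℕ) (b : Fin N → ℤ) (b0 : ℤ) (l : ℝ),
  1 ≤ N → Dat N a a0 b b0 l B → Function.Injective a → (∀ j, (a j).Prime) → a0.Prime →
    (∀ j, a j ≠ a0) → |Lam a a0 b b0| ≤ 2 / 2 ^ B →
      (B : ℝ) ≤ ((2 : ℝ) ^ (20 * (N + 1) ^ 3) * l + 2) ^ (16 * (N + 1) ^ 2)

/-- the bound for the logarithm of an `S`-unit -/
def Yb (k X : ℕ) : ℝ := k * log X * ((2 : ℝ) ^ (20 * k ^ 3) * log X + 2) ^ (16 * k ^ 2)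

/-- SUB: the `S`-unit equation `m - (m - 1) = 1`.  Uses BAK.

Proof.  `m = 2`: `log 2 ≤ Yb` (`k ≥ 1`).  Let `m ≥ 3`; the set `S` of the primes of `m (m - 1)` has `n` elements,
`2 ≤ n ≤ k` (`m`, `m - 1` are coprime and `≥ 2`).  `b_q = v_q(m) - v_q(m - 1)` for `q ∈ S` (one of the two is `0`),
`B = max |b_q| ≥ 1` attained at `a_0 ∈ S`; enumerate `S \ {a_0}` by `Fin N`, `N = n - 1` (`Finset.orderEmbOfFin` or
`Finset.equivFin`), `l = log X ≥ 1`.  `Lam = log m - log (m - 1) ∈ (0, 1 / (m - 1)]`, `2 ^ B ≤ a_0 ^ B ≤ m`, so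
`|Lam| ≤ 2 / m ≤ 2 / 2 ^ B`.  BAK bounds `B`, and `log m = ∑_{q ∣ m} v_q(m) log q ≤ n B l`; the bound increases
with `n`. -/
def SubStmt : Prop := ∀ m k X : ℕ, 2 ≤ m → 1 ≤ k → 3 ≤ X →
  (m * (m - 1)).primeFactors.card ≤ k → (∀ q ∈ (m * (m - 1)).primeFactors, q ≤ X) →
    log m ≤ Yb k X

/-! ## B. Counting -/

/-- `m` and `y` have the same prime divisors, and so have `m - 1` and `y - 1` -/
def Tw (m y : ℕ) : Prop := (∀ q : ℕ, q.Prime → (q ∣ m ↔ q ∣ y)) ∧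
  (∀ q : ℕ, q.Prime → (q ∣ m - 1 ↔ q ∣ y - 1))

/-- `y ≥ 2` has no twin -/
def Rig (y : ℕ) : Prop := 2 ≤ y ∧ ∀ m : ℕ, 2 ≤ m → Tw m y → m = y

/-- TWN: the key relation.

Proof.  `p ∣ m`; `m = p ^ e h'`, `p ∤ h'` (`Nat.exists_eq_pow_mul_and_not_dvd`), `e ≥ 1`.  `n = p h`, `p ∤ h`.  The
primes of `h'` are the primes of `m` without `p`, that is of `n` without `p`, that is of `h`.  Let `q ∣ n - 1`
be prime: `p h ≡ 1` and `p ^ e h' = m ≡ 1` modulo `q`, so `p ^ e h ^ e ≡ p ^ e h'`, and `q ∤ p` as `q ∤ n`. -/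
def TwnStmt : Prop := ∀ n m p : ℕ, 2 ≤ n → 2 ≤ m → p.Prime → p ∣ n → ¬ p ^ 2 ∣ n →
  (∀ q : ℕ, q.Prime → (q ∣ m ↔ q ∣ n)) → (∀ q : ℕ, q.Prime → q ∣ n - 1 → q ∣ m - 1) →
    ∃ e h' : ℕ, 1 ≤ e ∧ 1 ≤ h' ∧ m = p ^ e * h' ∧ h'.primeFactors = (n / p).primeFactors ∧
      ∀ q : ℕ, q.Prime → q ∣ n - 1 → (q : ℤ) ∣ (((n / p : ℕ) : ℤ)) ^ e - (h' : ℤ)

/-- EQP: the powers of `n`.

Proof.  (1) Let an odd prime `t` divide `e`, `Q = (n ^ t - 1) / (n - 1) = 1 + n + … + n ^ (t - 1)`.  `Q ∣ n ^ t - 1 ∣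
n ^ e - 1`.  Let `q` be a prime factor of `Q`; it divides `n ^ 2 - 1`.  If `q ∤ n - 1` then `n ≡ - 1` modulo `q` and
`Q ≡ 1` (an odd number of terms `±1`), impossible.  So `n ≡ 1` modulo `q`, `Q ≡ t`, `q = t`.  So `Q` is a power of
`t`, `Q > 1`, `n ≡ 1` modulo `t`; writing `n = 1 + t v`, `Q = ∑ (1 + t v) ^ i ≡ t + t v t (t - 1) / 2 ≡ t` modulo
`t ^ 2`, so `Q = t`; but `Q ≥ 1 + n + n ^ 2 (t - 2) > t` for `n ≥ 2`.  (Mathlib has LTE: `Int.emultiplicity_pow_sub_pow`,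
`Nat.emultiplicity_pow_sub_pow`.)  (2) If `4 ∣ e` then `n ^ 4 - 1 ∣ n ^ e - 1`, so each prime `q` of `n ^ 2 + 1` divides
`n ^ 2 - 1`, so `q = 2`; `n ^ 2 + 1 > 2` is not divisible by `4`, so it is not a power of two: impossible.
So `e` has no odd prime factor and is not divisible by `4`. -/
def EqpStmt : Prop := ∀ n e : ℕ, 2 ≤ n → 1 ≤ e →
  (∀ q : ℕ, q.Prime → q ∣ n ^ e - 1 → q ∣ n ^ 2 - 1) → e ≤ 2

/-- MRS.

Proof.  A prime `q ∣ n + 1` divides `n ^ 2 - 1`, so `n - 1`, so `2`; `n + 1` is a power of two. -/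
def MrsStmt : Prop := ∀ n : ℕ, 2 ≤ n → (∀ q : ℕ, q.Prime → q ∣ n ^ 2 - 1 → q ∣ n - 1) →
  ∃ a : ℕ, n + 1 = 2 ^ a

/-- SMS: numbers with few primes from a given set.

Proof.  `k` is determined by a set of at most `r` pairs (prime `q ∈ Q`, exponent in `[1, log₂ x]`).  The number
of sets of at most `r` elements of a set with `V` elements is at most `(V + 1) ^ r` (surjection from
`Fin r → Option V`: take the image), `V = #Q log₂ x`. -/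
def SmsStmt : Prop := ∀ (x r : ℕ) (Q : Finset ℕ),
  {k : ℕ | 1 ≤ k ∧ k ≤ x ∧ k.primeFactors ⊆ Q ∧ k.primeFactors.card ≤ r}.ncard ≤
    (Q.card * Nat.log 2 x + 1) ^ r

/-- OMG: many primes.

Proof.  `2 ^ ω(n) ≤ τ(n)` (squarefree divisors: subsets of the set of prime factors), and
`∑_{n ≤ x} τ(n) = ∑_{d ≤ x} ⌊x / d⌋ ≤ x (1 + log x)` (`harmonic_le_one_add_log`). -/
def OmgStmt : Prop := ∀ x r : ℕ, 1 ≤ x →
  ({n : ℕ | 1 ≤ n ∧ n ≤ x ∧ r < n.primeFactors.card}.ncard : ℝ) * 2 ^ r ≤ x * (1 + log x)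

/-- SQP: large square factors.

Proof.  At most `x / p ^ 2` numbers for each `p > y`, and `∑_{k > y} 1 / k ^ 2 ≤ 1 / y`. -/
def SqpStmt : Prop := ∀ x y : ℕ, 1 ≤ y →
  ({n : ℕ | 1 ≤ n ∧ n ≤ x ∧ ∃ p : ℕ, y < p ∧ p ^ 2 ∣ n}.ncard : ℝ) ≤ x / y

/-- the exceptional numbers of the second kind -/
def Bd (x y r E : ℕ) : Set ℕ := {n : ℕ | 2 ≤ n ∧ n ≤ x ∧ (n - 1).primeFactors.card ≤ r ∧
  ∃ p h e h' : ℕ, p.Prime ∧ y < p ∧ n = p * h ∧ h.primeFactors.card ≤ r ∧ 1 ≤ e ∧ e ≤ E ∧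
    1 ≤ h' ∧ h'.primeFactors = h.primeFactors ∧ (∀ q : ℕ, h'.factorization q ≤ E) ∧ h' ≠ h ^ e ∧
    ∀ q : ℕ, q.Prime → q ∣ n - 1 → (q : ℤ) ∣ (h : ℤ) ^ e - (h' : ℤ)}

/-- BCT: the count.  Uses SMS.

Proof.  `h ≤ x / y`; for each `h` at most `(E + 1) ^ r` numbers `h'` (the exponents of the at most `r` primes of
`h`), at most `E + 1` numbers `e`.  Given `h, e, h'`: `G = |h ^ e - h'| ≥ 1`, `G ≤ x ^ E` (`h' ≤ h ^ E` because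
`h'` divides `(∏_{q ∣ h} q) ^ E`), so `G` has at most `log₂ G ≤ E (log₂ x + 1)` prime factors
(`2 ^ ω(G) ≤ G`), the primes of `n - 1` are among them, and by SMS (`k = n - 1`) there are at most
`(E (log₂ x + 1) log₂ x + 1) ^ r` such `n`. -/
def BctStmt : Prop := ∀ x y r E : ℕ, 1 ≤ y → 1 ≤ E → 1 ≤ x →
  ((Bd x y r E).ncard : ℝ) ≤ (x : ℝ) / y * (E + 1) ^ (r + 1) *
    (E * (Nat.log 2 x + 1) ^ 2 + 1) ^ r

/-- PR2: the parameters of the count.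

Proof.  Let `ℓ = log x` be large.  `r ≤ ℓ ^ (1/8) < r + 1`, `log Yb (3 r) (x + 1) ≤ log (3 r) + log (ℓ + 1) + 144 r ^ 2
(540 r ^ 3 + log (ℓ + 1) + 2) ≤ 10 ^ 5 r ^ 5 + (log ℓ) ^ 2 r ^ 2 ≤ 2 · 10 ^ 5 ℓ ^ (5/8) (log ℓ) ^ 2`, so
`log E ≤ ℓ ^ (21/32)` for large `x`, and the logarithm of `(E + 1) ^ (r + 1) (E (log₂ x + 1) ^ 2 + 1) ^ r` is at most
`4 r ℓ ^ (21/32) + r (4 log ℓ) ≤ ℓ ^ (25/32 + 1/64)`, less than half of `log y ≥ ℓ ^ (13/16) - 1`, `13/16 = 26/32`.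
So the last term is at most `x exp (- ℓ ^ (13/16) / 4)`.  `(y log₂ x + 1) ^ r ≤ exp (ℓ ^ (1/8) (ℓ ^ (13/16) + 2 log ℓ)) ≤
√x`.  `2 ^ (- r) ≤ 2 exp (- (log 2) ℓ ^ (1/8))`, and `ℓ ^ (1/9)` is smaller than half of `ℓ ^ (1/8) log 2`. -/
def Pr2Stmt : Prop := ∃ x₀ : ℕ, ∀ x : ℕ, x₀ ≤ x → ∃ r y E : ℕ, 1 ≤ r ∧ 1 ≤ y ∧ 1 ≤ E ∧
  2 * Yb (3 * r) (x + 1) ≤ E ∧
  3 * (((x : ℝ) + 1) * (1 + log ((x : ℝ) + 1)) / 2 ^ r) +
    ((y : ℝ) * Nat.log 2 x + 1) ^ r + (x : ℝ) / y + (Nat.log 2 (x + 1) + 3) +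
    (x : ℝ) / y * ((E : ℝ) + 1) ^ (r + 1) * (E * (Nat.log 2 x + 1) ^ 2 + 1) ^ r ≤
      x * exp (-(log x) ^ (1 / 9 : ℝ))

/-- RIG: almost all `n` and almost all `n ^ 2` are determined.  Uses SUB, TWN, EQP, MRS, SMS, OMG, SQP,
BCT, PR2.

Proof.  Let `x` be large, `r, y, E` as in PR2, `2 ≤ n ≤ x`, and suppose that `n` or `n ^ 2` has a twin `m` different
from it.  We discard: `ω(n)`, `ω(n - 1)` or `ω(n + 1)` larger than `r` (OMG for `x` or `x + 1`; `n - 1 ≥ 1`); `n + 1` a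
power of two; `ω(n) ≤ r` and all primes of `n` at most `y` (SMS, `Q` the primes `≤ y`, `#Q ≤ y`); `p ^ 2 ∣ n` for
some `p > y` (SQP).  So `n = p h`, `p > y` prime, `p ^ 2 ∤ n`.  The primes of `m (m - 1)` are primes of
`n (n - 1) (n + 1)`, at most `3 r`, all `≤ x + 1`; SUB: `log m ≤ Yb (3 r) (x + 1)`, so all exponents of `m` are at
most `log m / log 2 ≤ 2 Yb ≤ E`.  TWN gives `e, h'` (`e ≤ E`).  If `h' = h ^ e` then `m = n ^ e`; EQP: `e ≤ 2`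
(primes of `m - 1` divide `n ^ 2 - 1` in both cases); `m ≠ n` resp. `m ≠ n ^ 2` leaves `m = n ^ 2` a twin of `n`
or `m = n` a twin of `n ^ 2`, in both cases the primes of `n ^ 2 - 1` divide `n - 1`, so `n + 1` is a power of two
(MRS).  Otherwise `n ∈ Bd x y r E` (`h` has at most `r` primes because they are primes of `n`).  The sum of the
six bounds is the left side of PR2.  For `x < x₀` enlarge `C`. -/
def RigStmt : Prop := ∃ C : ℝ, ∀ x : ℕ, 2 ≤ x →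
  ({n : ℕ | 2 ≤ n ∧ n ≤ x ∧ ¬ (Rig n ∧ Rig (n ^ 2))}.ncard : ℝ) ≤
    C * x * exp (-(log x) ^ (1 / 9 : ℝ))

end Pool.Agent.BKW
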